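import Pool.Agent.Run7.h421.BMq

/-!
# Banach-Mazur rotation problem: the second derivatives of the norm and their iterated limits

Let `E` be a separable real Banach space which is isomorphic to a Hilbert space and has a transitive
norm. The square of the norm has at every unit vector a second derivative in the sense that the second
difference quotients converge in each direction, to a quadratic form (starting library `Y278/Rot`).
Here: `E` is a Hilbert space if and only if these second derivatives `q` have the double limit
property, that is, the iterated limits of `q n (y m)` agree whenever they exist, for second derivatives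
`q n` and bounded sequences `y m`; if and only if the pointwise closure of the set of the second
derivatives is separable for uniform convergence on the unit ball. Nothing is assumed about the
continuity of the second derivative.

More generally, if a group `G` of isometries has dense orbits on the unit sphere and an equivalent inner
product `b` is such that the forms `b (T ·) (T ·)`, `T ∈ G`, have one of these two properties, then `E`
is a Hilbert space.

Proof outline.

1. `Run7/h421/BMo`: in a separable space, the double limit property implies that the pointwise closure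
   of the family is separable for uniform convergence on bounded sets: a member of the closure is, up
   to any precision, a function of finitely many members of a fixed countable subfamily (an argument of
   Haydon and Maurey for types).
2. `Run7/h421/BMp`: then the closed convex hull of the forms is separable too (`BMb`), and by the
   Ryll-Nardzewski theorem (`BMa`) it contains a `G`-invariant function. It is quadratic and bounded
   below by a multiple of the square of the norm, so by the dense orbits the norm satisfies the
   parallelogram law.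
3. `Run7/h421/BMq`: the second derivatives of a transitive norm on a Hilbertian space form the orbit of
   one equivalent inner product.
-/

set_option autoImplicit false

open Topology

namespace Pool.Agent.Results.MP_cc72b1_an.SecondDerivativeOrbits

open Run7.h421.BM

/-- the isometry group is transitive on the unit sphere -/
def Transitive (E : Type) [NormedAddCommGroup E] [NormedSpace ℝ E] : Prop :=
  ∀ x y : E, ‖x‖ = 1 → ‖y‖ = 1 → ∃ T : E ≃ₗᵢ[ℝ] E, T x = y

/-- the group `G` has dense orbits on the unit sphere -/
def DenseOrbits {E : Type} [NormedAddCommGroup E] [NormedSpace ℝ E]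
    (G : Subgroup (E ≃ₗᵢ[ℝ] E)) : Prop :=
  ∀ x y : E, ‖x‖ = 1 → ‖y‖ = 1 → ∀ ε : ℝ, 0 < ε → ∃ T ∈ G, ‖T x - y‖ < ε

theorem result :
    ∀ (E : Type) [NormedAddCommGroup E] [NormedSpace ℝ E] [CompleteSpace E] [Nontrivial E]
      [TopologicalSpace.SeparableSpace E],
      List.TFAE
        [IsHilbert E,
          Transitive E ∧ Hilbertian E ∧ DoubleLimit (secondDerivs E),
          Transitive E ∧ Hilbertian E ∧ SeparableClosure (secondDerivs E),
          ∃ (G : Subgroup (E ≃ₗᵢ[ℝ] E)) (b : E →L[ℝ] E →L[ℝ] ℝ) (c : ℝ), DenseOrbits G ∧ 0 < c ∧
            (∀ x, c * ‖x‖ ^ 2 ≤ b x x) ∧ DoubleLimit (formOrbit G b),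
          ∃ (G : Subgroup (E ≃ₗᵢ[ℝ] E)) (b : E →L[ℝ] E →L[ℝ] ℝ) (c : ℝ), DenseOrbits G ∧ 0 < c ∧
            (∀ x, c * ‖x‖ ^ 2 ≤ b x x) ∧ SeparableClosure (formOrbit G b)] := by
  intro E _ _ _ _ _
  have hne : ∃ x : E, ‖x‖ = 1 := exists_norm_eq E zero_le_one
  have htr : Transitive E → DenseOrbits (⊤ : Subgroup (E ≃ₗᵢ[ℝ] E)) := by
    intro h x y hx hy ε hε
    obtain ⟨T, hT⟩ := h x y hx hy
    exact ⟨T, trivial, by rw [hT, sub_self, norm_zero]; exact hε⟩
  tfae_have 1 → 2 := fun h =>
    ⟨fun x y hx hy => transitive_of_hilbert h hx hy, hilbertian_of_hilbert h,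
      dl_of_single (secondDerivs_of_hilbert h)⟩
  tfae_have 2 → 3 := by
    rintro ⟨hT, hH, hdl⟩
    refine ⟨hT, hH, ?_⟩
    obtain ⟨b, c, hc, hb, he⟩ := secondDerivs_eq hT hH hne
    rw [he] at hdl ⊢
    exact sepClosure_of_dl (norm_nonneg b) (quadBd_orbit hb _) (orbit_nonempty b _) hdl
  tfae_have 3 → 5 := by
    rintro ⟨hT, hH, hS⟩
    obtain ⟨b, c, hc, hb, he⟩ := secondDerivs_eq hT hH hne
    rw [he] at hS
    exact ⟨⊤, b, c, htr hT, hc, hb, hS⟩
  tfae_have 5 → 1 := by
    rintro ⟨G, b, c, hG, hc, hb, hS⟩
    exact hilbert_of_form G hG hne hc hb hS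
  tfae_have 4 → 5 := by
    rintro ⟨G, b, c, hG, hc, hb, hdl⟩
    exact ⟨G, b, c, hG, hc, hb,
      sepClosure_of_dl (norm_nonneg b) (quadBd_orbit hb _) (orbit_nonempty b _) hdl⟩
  tfae_have 1 → 4 := by
    intro h
    obtain ⟨b, hb⟩ := form_of_hilbert h
    refine ⟨⊤, b, 1, htr fun x y hx hy => transitive_of_hilbert h hx hy, one_pos,
      fun x => by rw [hb, one_mul], dl_of_single (q := fun y => ‖y‖ ^ 2) ?_⟩
    rintro _ ⟨T, -, rfl⟩
    funext y
    rw [hb, T.norm_map]
  tfae_finish

end Pool.Agent.Results.MP_cc72b1_an.SecondDerivativeOrbits
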