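import Pool.Agent.Run7.h421.BMn

/-!
# Banach-Mazur rotation problem: norm-separable second derivatives

Let `E` be a separable real Banach space which is isomorphic to a Hilbert space and has a transitive
norm. The square of the norm has at every unit vector `x` a second derivative, a quadratic form `A x`,
in the weak sense that the second difference quotients converge in each direction separately (starting
library `Y278/Rot`). Here the set of all forms `A x` is assumed to be separable for the operator norm;
this holds if some group of isometries which is separable for the operator norm is transitive on the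
unit sphere. If the norm is stable in the sense of Krivine and Maurey, then `E` is a Hilbert space.
Instead of stability it suffices that one type over `E` has an orbit closure which is separable for
uniform convergence on bounded sets, or that the closed convex hull of the functions `y ↦ ‖x + y‖²`,
`‖x‖ = 1`, has a member which is invariant under the isometries.

Proof outline.

1. `Run7/h421/BMl`, `unif_of_sep`: for fixed `w` the number `A x w w` depends continuously on `x`
   (starting library), so the sets of the `x` with `‖A x - a‖ ≤ ε` are closed. By Baire category one of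
   countably many has an interior point, and by transitivity `x ↦ A x` is uniformly continuous in
   norm.
2. `schwarz_le`, `sdiff_of_osc`: mean value theorem for symmetric second derivatives along segments.
   So the second difference quotients at `x` converge to `A x` uniformly in the direction, and `E` has
   quadratic scales.
3. `Run7/h421/BMm`, `sepHess_of_group`: the forms `A x` are the transforms `A x₀ (T ·) (T ·)` with `T`
   in the norm-separable group. That `E` is isomorphic to a Hilbert space is known in this case
   (starting file `NormSeparableGroups`).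
4. `Run7/h421/BMk` and `BMg`: invariant functions and the parallelogram law (as for `StableNorms`).
5. `Run7/h421/BMn`: in a separable Hilbert space the isometries which are compact perturbations of the
   identity form a norm-separable transitive group.
-/

set_option autoImplicit false

open Topology

namespace Pool.Agent.Results.MP_cc72b1_an.SeparableHessianNorms

open Run7.h421.BM Pool.Agent.H821.Rot

/-- the isometry group is transitive on the unit sphere -/
def Transitive (E : Type) [NormedAddCommGroup E] [NormedSpace ℝ E] : Prop :=
  ∀ x y : E, ‖x‖ = 1 → ‖y‖ = 1 → ∃ T : E ≃ₗᵢ[ℝ] E, T x = y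

/-- some group of isometries which is separable for the operator norm is transitive on the unit
sphere -/
def NormSeparableTransitive (E : Type) [NormedAddCommGroup E] [NormedSpace ℝ E] : Prop :=
  ∃ G : Subgroup (E ≃ₗᵢ[ℝ] E), TopologicalSpace.IsSeparable (ops (G : Set (E ≃ₗᵢ[ℝ] E))) ∧
    ∀ x y : E, ‖x‖ = 1 → ‖y‖ = 1 → ∃ T ∈ G, T x = y

/-- the pointwise closed convex hull of the functions `y ↦ ‖x + y‖²`, `‖x‖ = 1`, has a member which is
invariant under the isometries -/
def InvariantMember (E : Type) [NormedAddCommGroup E] [NormedSpace ℝ E] : Prop :=
  ∃ Ψ ∈ closure (convexHull ℝ (funs E)), ∀ (T : E ≃ₗᵢ[ℝ] E) (y : E), Ψ (T y) = Ψ y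

theorem result :
    ∀ (E : Type) [NormedAddCommGroup E] [NormedSpace ℝ E] [CompleteSpace E] [Nontrivial E]
      [TopologicalSpace.SeparableSpace E],
      List.TFAE
        [IsHilbert E,
          Transitive E ∧ Hilbertian E ∧ SeparableHessians E ∧ Stable E,
          Transitive E ∧ Hilbertian E ∧ SeparableHessians E ∧ SeparableOrbit E,
          Transitive E ∧ Hilbertian E ∧ SeparableHessians E ∧ InvariantMember E,
          NormSeparableTransitive E ∧ Stable E,
          NormSeparableTransitive E ∧ SeparableOrbit E,
          NormSeparableTransitive E ∧ InvariantMember E] := by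
  intro E _ _ _ _ _
  have hne : ∃ x : E, ‖x‖ = 1 := exists_norm_eq E zero_le_one
  have h0 : IsHilbert E → NormSeparableTransitive E := group_of_hilbert
  have h1 : NormSeparableTransitive E → Transitive E ∧ Hilbertian E ∧ SeparableHessians E := by
    rintro ⟨G, hsep, htr⟩
    refine ⟨fun x y hx hy => ?_, hilbertian G hsep htr, sepHess_of_group G hsep htr hne⟩
    obtain ⟨T, -, hT⟩ := htr x y hx hy
    exact ⟨T, hT⟩
  have h2 : Transitive E ∧ Hilbertian E ∧ SeparableHessians E ∧ InvariantMember E →
      IsHilbert E := by
    rintro ⟨hT, hH, hS, Ψ, hΨ, hinv⟩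
    have hA : ∀ x y : E, ‖x‖ = 1 → ‖y‖ = 1 → ∀ ε : ℝ, 0 < ε →
        ∃ T : E ≃ₗᵢ[ℝ] E, ‖T x - y‖ < ε := by
      intro x y hx hy ε hε
      obtain ⟨T, hT'⟩ := hT x y hx hy
      exact ⟨T, by rw [hT', sub_self, norm_zero]; exact hε⟩
    exact hilbert_of_par (par_of_scales hA (scales_of_sepHess hT hH hS hne) hΨ hinv)
  have h3 : Stable E → SeparableOrbit E := fun h =>
    separableOrbit_of_types (separableTypes_of_stable h) hne
  have h4 : SeparableOrbit E → InvariantMember E := exists_inv_orbit
  have h5 : IsHilbert E → Stable E := stable_of_hilbert
  tfae_have 1 → 5 := fun h => ⟨h0 h, h5 h⟩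
  tfae_have 5 → 6 := fun h => ⟨h.1, h3 h.2⟩
  tfae_have 6 → 7 := fun h => ⟨h.1, h4 h.2⟩
  tfae_have 5 → 2 := fun h => ⟨(h1 h.1).1, (h1 h.1).2.1, (h1 h.1).2.2, h.2⟩
  tfae_have 2 → 3 := fun h => ⟨h.1, h.2.1, h.2.2.1, h3 h.2.2.2⟩
  tfae_have 3 → 4 := fun h => ⟨h.1, h.2.1, h.2.2.1, h4 h.2.2.2⟩
  tfae_have 7 → 4 := fun h => ⟨(h1 h.1).1, (h1 h.1).2.1, (h1 h.1).2.2, h.2⟩
  tfae_have 4 → 1 := h2
  tfae_finish

end Pool.Agent.Results.MP_cc72b1_an.SeparableHessianNorms
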