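import Pool.Agent.Run7.h421.BMh

/-!
# Banach-Mazur rotation problem: stable norms

Let `E` be a separable real Banach space whose isometry group has dense orbits on the unit sphere, and
whose norm is stable in the sense of Krivine and Maurey (or, more generally, whose types realised by
unit vectors are separable for uniform convergence on bounded sets). If the square of the norm has a
second order Taylor expansion at one point of the sphere, with a positive definite second derivative,
then `E` is a Hilbert space. The Taylor expansion can be replaced by the weaker condition of quadratic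
scales. The spaces `L_p`, `p > 2`, are stable, have dense orbits and have second order Taylor
expansions, with second derivatives which are not positive definite.

Proof outline (files `Pool/Agent/Run7/h421/BM*`).

1. `BMa`: a compact convex set of functions (for pointwise convergence), invariant under a group and
   separable for uniform convergence on invariant sets, contains an invariant function. This is
   Ryll-Nardzewski's theorem; the slices of small diameter come from the extreme points, by Baire
   category (after Namioka and Asplund).
2. `BMb`: separability for uniform convergence passes from a compact set to its closed convex hull: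
   the hull consists of barycentres of probability measures.
3. `BMd`: a stable norm on a separable space has separable types (Haydon and Maurey): by the double
   limit condition a type is, on bounded sets, uniformly continuous with respect to finitely many of
   the functions `y ↦ ‖d + y‖`.
4. `BMe`: so there is an invariant function `Ψ` in the closed convex hull of the functions
   `y ↦ ‖x + y‖²`.
5. `BMg`: `Ψ` depends on the norm only, and its second differences inherit the parallelogram law up
   to an error which is small compared with their size, at some scales; rescale and pass to the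
   limit. `BMh`: Taylor expansions. `BMf`: the converse.
-/

set_option autoImplicit false

open Topology Asymptotics

namespace Pool.Agent.Results.MP_cc72b1_an.StableNorms

open Run7.h421.BM

theorem result :
    ∀ (E : Type) [NormedAddCommGroup E] [NormedSpace ℝ E] [CompleteSpace E] [Nontrivial E],
      -- the isometry group has dense orbits on the unit sphere
      (∀ x y : E, ‖x‖ = 1 → ‖y‖ = 1 → ∀ ε : ℝ, 0 < ε → ∃ T : E ≃ₗᵢ[ℝ] E, ‖T x - y‖ < ε) →
      -- an invariant function in the closed convex hull of the functions `y ↦ ‖x + y‖²`
      (IsHilbert E ↔ QuadraticScales E ∧ ∃ Ψ ∈ closure (convexHull ℝ (funs E)),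
        ∀ (T : E ≃ₗᵢ[ℝ] E) (y : E), Ψ (T y) = Ψ y) ∧
      -- stable norms and separable types
      (TopologicalSpace.SeparableSpace E →
        (IsHilbert E ↔ QuadraticScales E ∧ Stable E) ∧
        (IsHilbert E ↔ QuadraticScales E ∧ SeparableTypes E)) ∧
      -- second order Taylor expansions
      (∀ (x : E) (f : E →L[ℝ] ℝ) (a : E →L[ℝ] E →L[ℝ] ℝ), ‖x‖ = 1 →
        ((fun w => ‖x + w‖ ^ 2 - 1 - f w - a w w) =o[𝓝 0] fun w => ‖w‖ ^ 2) →
        ((∃ c : ℝ, 0 < c ∧ ∀ w, c * ‖w‖ ^ 2 ≤ a w w) ∨ TwoConvexIso E) →
        QuadraticScales E) := by
  intro E _ _ _ _ hA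
  have hne : ∃ x : E, ‖x‖ = 1 := exists_norm_eq E zero_le_one
  have hT : ∀ (x : E) (f : E →L[ℝ] ℝ) (a : E →L[ℝ] E →L[ℝ] ℝ), ‖x‖ = 1 →
      ((fun w => ‖x + w‖ ^ 2 - 1 - f w - a w w) =o[𝓝 0] fun w => ‖w‖ ^ 2) →
      ((∃ c : ℝ, 0 < c ∧ ∀ w, c * ‖w‖ ^ 2 ≤ a w w) ∨ TwoConvexIso E) → QuadraticScales E := by
    intro x f a hx ho h
    obtain ⟨c, hc, ha⟩ : ∃ c : ℝ, 0 < c ∧ ∀ w, c * ‖w‖ ^ 2 ≤ a w w := by
      rcases h with h | h
      · exact h
      · exact pos_of_twoConvex hA h hx ho
    exact scales_of_taylor hx hc ha ho
  have hQ : IsHilbert E → QuadraticScales E := by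
    intro h
    obtain ⟨x, f, a, c, hx, hc, ha, ho⟩ := taylor_of_hilbert h hne
    exact scales_of_taylor hx hc ha ho
  have hI : QuadraticScales E → (∃ Ψ ∈ closure (convexHull ℝ (funs E)),
      ∀ (T : E ≃ₗᵢ[ℝ] E) (y : E), Ψ (T y) = Ψ y) → IsHilbert E := by
    rintro h ⟨Ψ, hΨ, hinv⟩
    exact hilbert_of_par (par_of_scales hA h hΨ hinv)
  refine ⟨⟨fun h => ⟨hQ h, inv_of_hilbert h hne⟩, fun h => hI h.1 h.2⟩, fun _ => ⟨⟨fun h =>
    ⟨hQ h, stable_of_hilbert h⟩, fun h => hI h.1 (exists_inv (separableTypes_of_stable h.2) hne)⟩,
    ⟨fun h => ⟨hQ h, separableTypes_of_stable (stable_of_hilbert h)⟩,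
    fun h => hI h.1 (exists_inv h.2 hne)⟩⟩, hT⟩

end Pool.Agent.Results.MP_cc72b1_an.StableNorms
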