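import Pool.Agent.Run7.h421.BMk

/-!
# Banach-Mazur rotation problem: stable norms with a totally bounded space of pair orbits

Let `E` be a separable real Banach space with a transitive norm such that up to every `ε` there are
only finitely many pairs of unit vectors modulo linear isometries (for example the isometry group is
Roelcke precompact, or `E` is separably categorical). If the norm is stable in the sense of Krivine and
Maurey, then `E` is a Hilbert space. Instead of stability it suffices that one type over `E` has an
orbit closure which is separable for uniform convergence on bounded sets, or that the closed convex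
hull of the functions `y ↦ ‖x + y‖²`, `‖x‖ = 1`, has a member which is invariant under the isometries
(as it has if the isometry group is amenable). No smoothness of the norm is assumed.

Proof outline.

1. The starting file `PairOrbits` shows that `E` is isomorphic to a Hilbert space, and the starting
   library `Y278/Rot` that the square of the norm has at every unit vector `x` and in every direction
   a second derivative, which is a quadratic form `A x`.
2. `Run7/h421/BMi`: the second difference quotients at `x` converge to `A x` uniformly in the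
   direction. The quotients near a direction `e` are close to `A x e e`, for small `t`; by Baire
   category (starting file `H305R3/Rot/Near`) this holds for all directions which an isometry moving
   `x` by at most `ρ e` sends to the ball of radius `ρ e` about `e`; finitely many `e` suffice, as the
   space of pair orbits is compact.
3. So `E` has quadratic scales. `Run7/h421/BMk`: a type with a separable orbit closure gives an
   invariant function in the closed convex hull (Ryll-Nardzewski), and `BMg` (hand-in `StableNorms`)
   gives the parallelogram law.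
4. `Run7/h421/BMj`: Hilbert spaces satisfy the conditions.
-/

set_option autoImplicit false

open Topology

namespace Pool.Agent.Results.MP_cc72b1_an.StablePairOrbits

open Run7.h421.BM

/-- the isometry group is transitive on the unit sphere -/
def Transitive (E : Type) [NormedAddCommGroup E] [NormedSpace ℝ E] : Prop :=
  ∀ x y : E, ‖x‖ = 1 → ‖y‖ = 1 → ∃ T : E ≃ₗᵢ[ℝ] E, T x = y

/-- up to every `ε` there are only finitely many pairs of unit vectors modulo isometries -/
def FewPairs (E : Type) [NormedAddCommGroup E] [NormedSpace ℝ E] : Prop :=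
  ∀ ε : ℝ, 0 < ε → ∃ P : Finset (E × E), ∀ x z : E, ‖x‖ = 1 → ‖z‖ = 1 →
    ∃ p ∈ P, ∃ T : E ≃ₗᵢ[ℝ] E, ‖T x - p.1‖ ≤ ε ∧ ‖T z - p.2‖ ≤ ε

theorem result :
    ∀ (E : Type) [NormedAddCommGroup E] [NormedSpace ℝ E] [CompleteSpace E] [Nontrivial E]
      [TopologicalSpace.SeparableSpace E],
      (IsHilbert E ↔ Transitive E ∧ FewPairs E ∧ Stable E) ∧
      (IsHilbert E ↔ Transitive E ∧ FewPairs E ∧ SeparableOrbit E) ∧
      (IsHilbert E ↔ Transitive E ∧ FewPairs E ∧ ∃ Ψ ∈ closure (convexHull ℝ (funs E)),
        ∀ (T : E ≃ₗᵢ[ℝ] E) (y : E), Ψ (T y) = Ψ y) := by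
  intro E _ _ _ _ _
  have hne : ∃ x : E, ‖x‖ = 1 := exists_norm_eq E zero_le_one
  have h1 : IsHilbert E → Transitive E ∧ FewPairs E := fun h =>
    ⟨fun x y hx hy => transitive_of_hilbert h hx hy, fun ε hε => pairs_of_hilbert h hε⟩
  have h2 : IsHilbert E → Stable E := stable_of_hilbert
  have h3 : Stable E → SeparableOrbit E := fun h =>
    separableOrbit_of_types (separableTypes_of_stable h) hne
  have h4 : Transitive E → FewPairs E → (∃ Ψ ∈ closure (convexHull ℝ (funs E)),
      ∀ (T : E ≃ₗᵢ[ℝ] E) (y : E), Ψ (T y) = Ψ y) → IsHilbert E := by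
    rintro hT hP ⟨Ψ, hΨ, hinv⟩
    have hA : ∀ x y : E, ‖x‖ = 1 → ‖y‖ = 1 → ∀ ε : ℝ, 0 < ε →
        ∃ T : E ≃ₗᵢ[ℝ] E, ‖T x - y‖ < ε := by
      intro x y hx hy ε hε
      obtain ⟨T, hT'⟩ := hT x y hx hy
      exact ⟨T, by rw [hT', sub_self, norm_zero]; exact hε⟩
    exact hilbert_of_par (par_of_scales hA (scales_of_pairs hT hP hne) hΨ hinv)
  have h5 : Transitive E → FewPairs E → SeparableOrbit E → IsHilbert E :=
    fun hT hP h => h4 hT hP (exists_inv_orbit h)
  refine ⟨⟨fun h => ⟨(h1 h).1, (h1 h).2, h2 h⟩, fun h => h5 h.1 h.2.1 (h3 h.2.2)⟩,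
    ⟨fun h => ⟨(h1 h).1, (h1 h).2, h3 (h2 h)⟩, fun h => h5 h.1 h.2.1 h.2.2⟩,
    ⟨fun h => ⟨(h1 h).1, (h1 h).2, inv_of_hilbert h hne⟩, fun h => h4 h.1 h.2.1 h.2.2⟩⟩

end Pool.Agent.Results.MP_cc72b1_an.StablePairOrbits
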